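import Pool.Agent.U259.WP.Main

/-!
# Alperin's weight conjecture in alternating-sum form: divisibility by `p` decides

Blocks of `G` are given by their central characters `Z(F G) → F`, as functions `B : (G → F) → F`
(`Pool.Agent.Y63.NV.IsBlock`); `red` is a reduction map from the algebraic integers to an algebraically
closed field `F` of characteristic `p`. `S(B)` is the alternating sum of Q1 for `O_p(G) = 1`, over the
classes of chains of nontrivial `p`-subgroups of `G`.

* `numIrrInd red H B`: the number of `ϑ ∈ Irr(H)` with `bl(ϑ)^G = B`.
* `numDzBlock p red B`: the number of the irreducible characters of defect zero in `B`; it is `0` if and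
  only if the defect groups of `B` are nontrivial.
* `IsIdem e`: `e` is a class function on which all blocks take the values `0` and `1`, for instance the sum
  of some block idempotents.
* `Wr p G`: the wreath product `G ≀ C_p`; `wrF p e`: the element `e ⊗ ⋯ ⊗ e` of the centre of its group
  algebra, supported on the base group `G^p`.

Proof. Let `Γ = G ≀ C_p`, `N = G^p`. By the index formula (`Pool.Agent.N20.KB.aa_index`)
`|Γ| S(Γ, e') = |N| S(N, e') - ∑_R |C_N(R)| S(C_N(R), e')`, the sum over the complements `R` of `N`, for
`e' = e ⊗ ⋯ ⊗ e`. The alternating sum is multiplicative, so `S(N, e') = S(G, e)^p`; there are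
`|G|^(p-1)` complements, they are conjugate, and `C_N(R)` is a twisted diagonal subgroup, on which `e'` is
the Frobenius twist of `e`. The alternating sums are invariant under twists by automorphisms of `F`
because they can be computed with irreducible representations over `F`. Hence
`p S(Γ, e') = S(G, e)^p - S(G, e)`. If `p^k`, `k ≥ 1`, divides the alternating sums of all blocks of positive
defect of `G` and of `Γ`, then it divides `S(Γ, e')` for the idempotent `e` of such a block of `G` (`Γ` has
no defect zero characters over it), so `p^(k+1)` divides `S(G, e)`.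
-/

set_option autoImplicit false

noncomputable section

namespace Pool.Agent.Results.MP_6a3f1a_al.DivisibilityDecides

open Pool.Agent.Y63.NV (IsBlock IsClassFun centralValue numIrrInd numDzBlock)
open Pool.Agent.Y63.AWC (IsIrreducibleCharacter)
open Pool.Agent.Y63.KR (alternatingSum chainSetoid chainStabilizer)
open Pool.Agent.N85.WM (Wr wrF IsIdem)

/-- The alternating sum `S(B) = ∑_σ (-1)^|σ| k(B_σ)` over representatives `σ` of the `G`-classes of chains
of nontrivial `p`-subgroups of `G`, the empty chain included. -/
def S (p : ℕ) {F : Type} [Field F] (red : integralClosure ℤ ℂ →+* F) {G : Type} [Group G]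
    (B : (G → F) → F) : ℤ :=
  alternatingSum p G (fun H => (numIrrInd red H B : ℤ))

/-- The same sum without signs. -/
def T (p : ℕ) {F : Type} [Field F] (red : integralClosure ℤ ℂ →+* F) {G : Type} [Group G]
    (B : (G → F) → F) : ℕ :=
  ∑ᶠ c : Quotient (chainSetoid p G), numIrrInd red (chainStabilizer c.out.1) B

/-- `G` has no nontrivial normal `p`-subgroup, and `B` is a block of `G` without characters of defect
zero, that is, with nontrivial defect groups. -/
structure Adm (p : ℕ) {F : Type} [Field F] (red : integralClosure ℤ ℂ →+* F) {G : Type} [Group G]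
    (B : (G → F) → F) : Prop where
  op : ∀ P : Subgroup G, P.Normal → IsPGroup p P → P = ⊥
  block : IsBlock B
  defect : numDzBlock p red B = 0

/-- The alternating sum `S(G, e)`: over the same chains, of the numbers of the irreducible characters of
`G_σ` whose reduced central character takes the value `1` at the restriction of `e`. -/
def Se (p : ℕ) {F : Type} [Field F] (red : integralClosure ℤ ℂ →+* F) (G : Type) [Group G]
    (e : G → F) : ℤ :=
  alternatingSum p G (fun H => (Nat.card {χ : H → ℂ // IsIrreducibleCharacter χ ∧
    centralValue red χ (fun x => e x) = 1} : ℤ))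

/-- The alternating sum for the `j`-th iterated wreath product `(⋯((G ≀ C_p) ≀ C_p)⋯) ≀ C_p` and its
idempotent `(⋯(e ⊗ ⋯ ⊗ e)⋯)`. -/
def SeN (p : ℕ) [NeZero p] {F : Type} [Field F] (red : integralClosure ℤ ℂ →+* F) :
    ℕ → (G : Type) → [Group G] → (G → F) → ℤ
  | 0, G, _, e => Se p red G e
  | j + 1, G, _, e => SeN p red j (Wr p G) (wrF p e)

/-- **Alperin's weight conjecture in the alternating-sum form: divisibility by `p` decides.** Let `p` be
any prime.
(1) `S(B) = 0` for all finite groups `G` with `O_p(G) = 1` and all blocks `B` of `G` with nontrivial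
defect groups if and only if `p` divides all these `S(B)`; for `p = 2`, if and only if all the sums `T(B)`
without signs are even.
(2) The same for the groups in any class `X` of groups closed (for finite groups) under `G ↦ G ≀ C_p`.
(3) `p S(G ≀ C_p, e ⊗ ⋯ ⊗ e) = S(G, e)^p - S(G, e)` if all blocks of the finite group `G` take the
values `0` and `1` at `e`; the element `e ⊗ ⋯ ⊗ e` has the same property; `p^a` divides `S(G, e)` if and
only if `p` divides the alternating sums for the first `a` iterated wreath products; so `S(G, e) = 0` if
and only if it divides all of them.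
(4) This applies to each single block `B` of `G`: there is such an `e` with `S(G, e) = S(B)`, the
idempotent of `B`. -/
theorem result (p : ℕ) [Fact p.Prime] (F : Type) [Field F] [IsAlgClosed F] [CharP F p]
    (red : integralClosure ℤ ℂ →+* F) :
    (((∀ (G : Type) [Group G] [Finite G] (B : (G → F) → F), Adm p red B → S p red B = 0) ↔
        ∀ (G : Type) [Group G] [Finite G] (B : (G → F) → F), Adm p red B → (p : ℤ) ∣ S p red B) ∧
      (p = 2 →
        ((∀ (G : Type) [Group G] [Finite G] (B : (G → F) → F), Adm p red B → S p red B = 0) ↔
          ∀ (G : Type) [Group G] [Finite G] (B : (G → F) → F), Adm p red B → Even (T p red B)))) ∧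
    (∀ X : ∀ (G : Type) [Group G], Prop,
      (∀ (G : Type) [Group G] [Finite G], X G → X (Wr p G)) →
      ((∀ (G : Type) [Group G] [Finite G], X G → ∀ B : (G → F) → F, Adm p red B →
          S p red B = 0) ↔
        ∀ (G : Type) [Group G] [Finite G], X G → ∀ B : (G → F) → F, Adm p red B →
          (p : ℤ) ∣ S p red B) ∧
      (p = 2 →
        ((∀ (G : Type) [Group G] [Finite G], X G → ∀ B : (G → F) → F, Adm p red B →
            S p red B = 0) ↔
          ∀ (G : Type) [Group G] [Finite G], X G → ∀ B : (G → F) → F, Adm p red B →
            Even (T p red B)))) ∧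
    (∀ (G : Type) [Group G] [Finite G] (e : G → F), IsIdem e →
      IsIdem (wrF p e) ∧ (p : ℤ) * Se p red (Wr p G) (wrF p e) = Se p red G e ^ p - Se p red G e ∧
      (∀ a : ℕ, (p : ℤ) ^ a ∣ Se p red G e ↔ ∀ j < a, (p : ℤ) ∣ SeN p red j G e) ∧
      (Se p red G e = 0 ↔ ∀ j : ℕ, (p : ℤ) ∣ SeN p red j G e)) ∧
    ∀ (G : Type) [Group G] [Finite G] (B : (G → F) → F), IsBlock B →
      ∃ e : G → F, IsIdem e ∧ B e = 1 ∧
        (∀ B' : (G → F) → F, IsBlock B' → B' e = 1 → ∀ f : G → F, IsClassFun f → B' f = B f) ∧
        S p red B = Se p red G e := by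
  have hX : ∀ X : ∀ (G : Type) [Group G], Prop,
      (∀ (G : Type) [Group G] [Finite G], X G → X (Wr p G)) →
      ((∀ (G : Type) [Group G] [Finite G], X G → ∀ B : (G → F) → F, Adm p red B →
          S p red B = 0) ↔
        ∀ (G : Type) [Group G] [Finite G], X G → ∀ B : (G → F) → F, Adm p red B →
          (p : ℤ) ∣ S p red B) ∧
      (p = 2 →
        ((∀ (G : Type) [Group G] [Finite G], X G → ∀ B : (G → F) → F, Adm p red B →
            S p red B = 0) ↔
          ∀ (G : Type) [Group G] [Finite G], X G → ∀ B : (G → F) → F, Adm p red B →
            Even (T p red B))) := by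
    intro X hX
    have h1 : ((∀ (G : Type) [Group G] [Finite G], X G → ∀ B : (G → F) → F, Adm p red B →
          S p red B = 0) ↔
        ∀ (G : Type) [Group G] [Finite G], X G → ∀ B : (G → F) → F, Adm p red B →
          (p : ℤ) ∣ S p red B) := by
      constructor
      · intro h G _ _ hG B hB
        rw [h G hG B hB]
        exact dvd_zero _
      · intro h G _ _ hG B hB
        exact Pool.Agent.U259.WP.class_main red X hX
          (fun G _ _ hG ho B hB hz => h G hG B ⟨ho, hB, hz⟩) G hG B hB.block hB.defect
    refine ⟨h1, fun hp2 => ?_⟩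
    rw [h1]
    subst hp2
    constructor
    · intro h G _ _ hG B hB
      exact (Pool.Agent.U259.WP.parity red B).1 (h G hG B hB)
    · intro h G _ _ hG B hB
      exact (Pool.Agent.U259.WP.parity red B).2 (h G hG B hB)
  have hSe : ∀ (j : ℕ) (G : Type) [Group G] (e : G → F),
      SeN p red j G e = Pool.Agent.U259.WP.SN p red j G e := by
    intro j
    induction j with
    | zero => intro G _ e; rfl
    | succ j ih => intro G _ e; exact ih (Wr p G) (wrF p e)
  refine ⟨?_, hX, fun G _ _ e he => ⟨Pool.Agent.U259.WP.idem_wr red he,
    Pool.Agent.U259.WP.wr_formula red he, fun a => ?_, ?_⟩, fun G _ _ B hB => ?_⟩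
  · obtain ⟨h1, h2⟩ := hX (fun _ _ => True) (fun _ _ _ _ => trivial)
    constructor
    · constructor
      · intro h G _ _ B hB
        rw [h G B hB]
        exact dvd_zero _
      · intro h G _ _ B hB
        exact h1.2 (fun G _ _ _ B hB => h G B hB) G trivial B hB
    · intro hp2
      constructor
      · intro h G _ _ B hB
        exact (h2 hp2).1 (fun G _ _ _ B hB => h G B hB) G trivial B hB
      · intro h G _ _ B hB
        exact (h2 hp2).2 (fun G _ _ _ B hB => h G B hB) G trivial B hB
  · simp only [hSe]
    exact Pool.Agent.U259.WP.tower red a G e he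
  · simp only [hSe]
    exact Pool.Agent.U259.WP.tower_zero red G e he
  · obtain ⟨e, he⟩ := Pool.Agent.U259.WP.exists_sep hB
    exact ⟨e, he.1, he.2.1, fun B' hB' h f hf => (he.2.2 B' hB' h f hf).symm,
      Pool.Agent.U259.WP.SB_sep red he⟩

end Pool.Agent.Results.MP_6a3f1a_al.DivisibilityDecides
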