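import Pool.Agent.N20.KB.Mult
import Pool.Agent.Y63.NV.Bawc

/-!
# The alternating-sum form of Alperin's weight conjecture and extensions by `p`-groups

Blocks of `G` are given by their central characters `Z(F G) → F`, as functions `B : (G → F) → F`
(`Pool.Agent.Y63.NV.IsBlock`); `red` is a reduction map from the algebraic integers to an algebraically
closed field `F` of characteristic `p`. `KRB p red G` (`Pool.Agent.Y63.NV`) says that the alternating sum
`∑_σ (-1)^|σ| k(B_σ)` over the classes of chains `σ` of nontrivial `p`-subgroups is the number of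
irreducible characters of defect zero in `B`, for all blocks `B` of `G`; for `O_p(G) = 1` this is the
conjecture of the problem. `BAWC p red G` is the blockwise weight conjecture for `G`: `l(B)` is the number
of `G`-classes of weights of `B`, for all blocks `B`.

The theorems of the library (`Pool.Agent.R674.KB.krb_main`, `Pool.Agent.Y63.NV.bawc_strong`,
`Pool.Agent.N20.KB.aa_index`) had not been handed in. The two forms of the conjecture are compared by
inversion over chains for a minimal counterexample, which only needs subgroups and quotients by normal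
`p`-subgroups; the reduction to groups without normal subgroups of index `p` uses that for a proper normal
subgroup `N` of `Γ` with `Γ/N` a `p`-group the numbers of invariant Brauer characters of `N` and of weights
`Q` with `NQ = Γ` have vanishing alternating sums over the chains of `Γ`.
-/

set_option autoImplicit false

noncomputable section

namespace Pool.Agent.Results.MP_6a3f1a_al.ExtensionsByPGroups

open Pool.Agent.Y63.NV (IsClassFun centralValue KRB BAWC Closed Reduced)
open Pool.Agent.Y63.AWC (IsIrreducibleCharacter)
open Pool.Agent.Y63.KR (alternatingSum)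

/-- The number of the irreducible characters `ϑ` of the subgroup `H` of `G` whose reduced central
character takes the value `c` at the restriction of `z` to `H`. If `z` is the idempotent of a block `B` of
`G`, `c = 1` and `bl(ϑ)^G` is defined for all `ϑ`, then this is the number of the `ϑ` with
`bl(ϑ)^G = B`. -/
def numVal {F : Type} [Field F] (red : integralClosure ℤ ℂ →+* F) {G : Type} [Group G]
    (z : G → F) (c : F) (H : Subgroup G) : ℕ :=
  Nat.card {χ : H → ℂ // IsIrreducibleCharacter χ ∧ centralValue red χ (fun x => z x) = c}

/-- The alternating sum of these numbers over the chains of nontrivial `p`-subgroups of `G`. -/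
def S (p : ℕ) {F : Type} [Field F] (red : integralClosure ℤ ℂ →+* F) (G : Type) [Group G]
    (z : G → F) (c : F) : ℤ :=
  alternatingSum p G (fun H => (numVal red z c H : ℤ))

/-- Let `p` be a prime, `X` a class of groups closed under isomorphisms, subgroups and quotients by normal
`p`-subgroups (for example all groups, or the sections of one group).
(1) The following are equivalent: (a) the alternating-sum form of the weight conjecture for the blocks of
the finite groups in `X` which have no normal subgroup of index `p` and no nontrivial normal `p`-subgroup;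
(b) the alternating-sum form for all extensions of finite groups in `X` by `p`-groups; (c) the blockwise
weight conjecture for the groups of (a); (d) the blockwise weight conjecture for the groups of (b).
(2) Let `N` be a normal subgroup of index `p` of a finite group `Γ`, `z` a class function on `Γ` which
vanishes outside `N` (for example a sum of block idempotents) and `c ∈ F`. Then
`|Γ| S(Γ, z, c) = |N| S(N, z, c) - ∑_R |C_N(R)| S(C_N(R), z, c)`, the sum over the complements `R` of `N`
in `Γ`. -/
theorem result (p : ℕ) [Fact p.Prime] (F : Type) [Field F] [IsAlgClosed F] [CharP F p]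
    (red : integralClosure ℤ ℂ →+* F) :
    (∀ X : ∀ (H : Type) [Group H], Prop, Closed p X → List.TFAE
      [∀ (H : Type) [Group H] [Finite H], X H → Reduced p H → KRB p red H,
       ∀ (Γ : Type) [Group Γ] [Finite Γ] (G : Subgroup Γ) [G.Normal], X G → IsPGroup p (Γ ⧸ G) →
        KRB p red Γ,
       ∀ (H : Type) [Group H] [Finite H], X H → Reduced p H → BAWC p red H,
       ∀ (Γ : Type) [Group Γ] [Finite Γ] (G : Subgroup Γ) [G.Normal], X G → IsPGroup p (Γ ⧸ G) →
        BAWC p red Γ]) ∧
    ∀ (Γ : Type) [Group Γ] [Finite Γ] (N : Subgroup Γ) [N.Normal], N.index = p →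
      ∀ (z : Γ → F) (c : F), IsClassFun z → (∀ x : Γ, x ∉ N → z x = 0) →
        (Nat.card Γ : ℤ) * S p red Γ z c = (Nat.card N : ℤ) * S p red N (fun x => z x) c -
          ∑ᶠ R : Subgroup Γ, open Classical in if N ⊔ R = ⊤ ∧ N ⊓ R = ⊥ then
            (Nat.card ↥(N ⊓ Subgroup.centralizer (R : Set Γ)) : ℤ) *
              S p red ↥(N ⊓ Subgroup.centralizer (R : Set Γ)) (fun x => z x) c else 0 := by
  refine ⟨fun X hX => ?_, fun Γ _ _ N _ hN z c hz hzN => ?_⟩
  · have hs := Pool.Agent.Y63.NV.bawc_strong red X hX
    have hk := Pool.Agent.R674.KB.krb_main red X hX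
    have hkdimh := Pool.Agent.R674.KB.kdimh
    have hkfilt := Pool.Agent.R674.KB.kfilt
    have hkfin := Pool.Agent.R674.KB.kfin'
    tfae_have 1 ↔ 2 := hk
    tfae_have 3 ↔ 4 := hs
    tfae_have 4 → 2 := by
      intro h Γ _ _ G hG hXG hp
      refine Pool.Agent.Y63.NV.krb_of_bawc hkdimh hkfilt hkfin red fun σ _ => ?_
      obtain ⟨G', hG', hX', hp'⟩ :=
        (Pool.Agent.Y63.NV.xp_closed p X hX).sub Γ ⟨G, hG, hXG, hp⟩
          (Pool.Agent.Y63.KR.chainStabilizer σ)
      exact (Pool.Agent.Y63.NV.bawc_iff p red).1 (h _ G' hX' hp')
    tfae_have 1 → 4 := by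
      intro h Γ _ _ G hG hXG hp
      rw [Pool.Agent.Y63.NV.bawc_iff]
      refine Pool.Agent.Y63.NV.bawc_reduction' red X hX ?_ (Nat.card Γ) Γ le_rfl ⟨G, hG, hXG, hp⟩
      intro H _ _ hH hR hsmall
      refine Pool.Agent.Y63.NV.bawc_of_krb hkdimh hkfilt hkfin red (fun σ hσ hne => ?_) (h H hH hR)
      exact hsmall _ ((Pool.Agent.Y63.NV.xp_closed p X hX).sub H ⟨⊤, inferInstance,
        hX.iso _ _ hH ⟨Subgroup.topEquiv.symm⟩, Pool.Agent.Y63.NV.pgroup_top p H⟩ _)
        (Pool.Agent.Y63.NV.stab_lt hR.radical hσ hne)
    tfae_finish
  · have h := Pool.Agent.N20.KB.aa_index red hN ⟨fun g x => hz g x, hzN⟩ c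
    have hcl : ∀ H : Subgroup Γ, IsClassFun (fun x : H => z x) := fun H g x => hz g x
    rw [Pool.Agent.N20.KB.aa_aB red hz, Pool.Agent.N20.KB.aa_aB red (hcl N)] at h
    refine h.trans ?_
    congr 1
    refine finsum_congr fun R => ?_
    by_cases hR : N ⊔ R = ⊤ ∧ N ⊓ R = ⊥
    · have hRp : IsPGroup p R := by
        have h1 : Subgroup.IsComplement' R N := by
          refine Subgroup.isComplement'_of_disjoint_and_mul_eq_univ ?_ ?_
          · rw [disjoint_iff, inf_comm]
            exact hR.2
          · rw [← Subgroup.mul_normal, sup_comm, hR.1]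
            rfl
        refine IsPGroup.of_card (n := 1) ?_
        rw [pow_one, ← h1.index_eq_card, hN]
      rw [if_pos ⟨hRp, hR⟩, if_pos hR, Pool.Agent.N20.KB.aa_aB red (hcl _)]
      rfl
    · rw [if_neg fun h' => hR h'.2, if_neg hR]

end Pool.Agent.Results.MP_6a3f1a_al.ExtensionsByPGroups
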