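import Pool.Agent.Q90.WR.Bcl

/-!
# Alperin's weight conjecture in the form of Knörr and Robinson, block by block: parity decides

Let `p` be an odd prime and `O` a valuation ring of `ℂ` whose maximal ideal contains `p`; blocks, defect
groups and block induction are defined by central characters modulo the maximal ideal of `O`
(`Pool.Agent.H254R3.IN`). For a block `B` of a finite group `G` let `S(B)` be the alternating sum of Q1,
over the classes of chains of nontrivial `p`-subgroups, and `T(B)` the sum without signs.

Proof. Let `B ≀ C₂` be the block of `G ≀ C₂` above `B ⊗ B` (it is unique, since `p` is odd and `B` has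
positive defect). The sum of an arbitrary function of the stabilisers over the chains of `G ≀ C₂` is a sum
over pairs of chains of `G` plus a sum over chains of `G` of differences of values at wreath products
`G_σ ≀ C₂` and at direct products `G_σ × G_σ`; for the numbers of the characters whose block induces to
`B ≀ C₂` this gives `2 S(B ≀ C₂) = S(B)² + 3 S(B)`. So if `2^(a+1)` divides `S(B)` and `S(B ≀ C₂)`, then
`2^(a+2)` divides `S(B)`, and evenness for all iterated wreath products gives `S(B) = 0`.
-/

set_option autoImplicit false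

noncomputable section

namespace Pool.Agent.Results.MP_6a3f1a_al.ParityDecides

open Pool.Agent.Y63.KR (alternatingSum chainSetoid chainStabilizer)
open Pool.Agent.Q90.WR (Wr WrN WrSN IndS AdmB)
open Pool.Agent.Q259.BW (WrS)
open Pool.Agent.H254R3.IN (IsBlock IsDefectGroup)

/-- `k(B_σ)` for `G_σ = H`: the number of the irreducible characters `θ` of the subgroup `H` with
`bl(θ)^G = B`. -/
def kB (O : ValuationSubring ℂ) {G : Type} [Group G] (B : Set (G → ℂ)) (H : Subgroup G) : ℕ :=
  Nat.card (IndS O B (Subtype.val : H → G))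

/-- The alternating sum `∑_σ (-1)^|σ| k(B_σ)` over representatives `σ` of the `G`-classes of chains of
nontrivial `p`-subgroups of `G`, the empty chain included. -/
def S (p : ℕ) (O : ValuationSubring ℂ) {G : Type} [Group G] (B : Set (G → ℂ)) : ℤ :=
  alternatingSum p G (fun H => (kB O B H : ℤ))

/-- The same sum without signs. -/
def T (p : ℕ) (O : ValuationSubring ℂ) {G : Type} [Group G] (B : Set (G → ℂ)) : ℕ :=
  ∑ᶠ c : Quotient (chainSetoid p G), kB O B (chainStabilizer c.out.1)

/-- **Alperin's weight conjecture in the alternating sum form, odd primes: parity decides.** Let `p` be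
an odd prime.
(1) `S(B) = 0` for all finite groups `G` with `O_p(G) = 1` and all blocks `B` of `G` with nontrivial
defect groups if and only if `T(B)` is even for all these `G`, `B`.
(2) The same for every class `C` of such pairs `(G, B)` closed under `(G, B) ↦ (G ≀ C₂, B ≀ C₂)`.
(3) For one block `B` with a nontrivial defect group `D` of a finite group `G`: `B ≀ C₂` is a block of
`G ≀ C₂` with `2 S(B ≀ C₂) = S(B)² + 3 S(B)`, and `2^a` divides `S(B)` if and only if the numbers `T` of
the first `a` iterated wreath products `WrSN j B`, `j < a`, are even; so `S(B) = 0` if and only if they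
are even for all `j`. -/
theorem result (p : ℕ) [Fact p.Prime] (hp2 : p ≠ 2) (O : ValuationSubring ℂ)
    (hpO : (p : ℂ) ∈ O.nonunits) :
    ((∀ (G : Type) [Group G] (B : Set (G → ℂ)), AdmB p O G B → S p O B = 0) ↔
      ∀ (G : Type) [Group G] (B : Set (G → ℂ)), AdmB p O G B → Even (T p O B)) ∧
    (∀ C : (G : Type) → Group G → Set (G → ℂ) → Prop,
      (∀ (G : Type) [i : Group G] (B : Set (G → ℂ)), C G i B → AdmB p O G B) →
      (∀ (G : Type) [i : Group G] (B : Set (G → ℂ)), C G i B → C (Wr G) inferInstance (WrS B)) →
      ((∀ (G : Type) [i : Group G] (B : Set (G → ℂ)), C G i B → S p O B = 0) ↔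
        ∀ (G : Type) [i : Group G] (B : Set (G → ℂ)), C G i B → Even (T p O B))) ∧
    ∀ (G : Type) [Group G] [Finite G] (B : Set (G → ℂ)) (D : Subgroup G), IsBlock O B →
      IsDefectGroup p O B D → D ≠ ⊥ →
      (IsBlock O (WrS B) ∧ 2 * S p O (WrS B) = S p O B ^ 2 + 3 * S p O B) ∧
      (∀ a : ℕ, (2 : ℤ) ^ a ∣ S p O B ↔ ∀ j < a, Even (T p O (WrSN j B))) ∧
      (S p O B = 0 ↔ ∀ j : ℕ, Even (T p O (WrSN j B))) := by
  have key : ∀ C : (G : Type) → Group G → Set (G → ℂ) → Prop,
      (∀ (G : Type) [i : Group G] (B : Set (G → ℂ)), C G i B → AdmB p O G B) →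
      (∀ (G : Type) [i : Group G] (B : Set (G → ℂ)), C G i B → C (Wr G) inferInstance (WrS B)) →
      ((∀ (G : Type) [i : Group G] (B : Set (G → ℂ)), C G i B → S p O B = 0) ↔
        ∀ (G : Type) [i : Group G] (B : Set (G → ℂ)), C G i B → Even (T p O B)) := by
    intro C h1 h2
    have hN : ∀ (j : ℕ) (G : Type) [i : Group G] (B : Set (G → ℂ)), C G i B →
        C (WrN j G) inferInstance (WrSN j B) := by
      intro j
      induction j with
      | zero => exact fun G _ B h => h
      | succ j ih => exact fun G _ B h => ih (Wr G) (WrS B) (h2 G B h)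
    constructor
    · intro h G _ B hB
      have := (h1 G B hB).fin
      exact (Pool.Agent.Q90.WR.blkAlt_parity B).mpr (by
        have h3 : Pool.Agent.Q90.WR.blkAlt p O B = 0 := h G B hB
        rw [h3]
        exact dvd_zero _)
    · intro h G _ B hB
      have := (h1 G B hB).fin
      exact (Pool.Agent.Q90.WR.ba_one hp2 hpO G B ((h1 G B hB).good hpO)).mpr
        fun j => h (WrN j G) (WrSN j B) (hN j G B hB)
  refine ⟨key (fun G i B => AdmB p O G B) (fun G _ B h => h) (fun G _ B h => h.wr hp2 hpO), key, ?_⟩
  intro G _ _ B D hB hD hne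
  have := Fintype.ofFinite G
  have hg : Pool.Agent.Q90.WR.GoodB O B :=
    ⟨hB, Pool.Agent.Q259.BW.nonunits_of_defect hpO hB hD hne⟩
  exact ⟨⟨(hg.wr hp2 hpO).block, Pool.Agent.Q90.WR.blkAlt_wr hp2 hpO hg.block hg.pos⟩,
    fun a => Pool.Agent.Q90.WR.ba_iff hp2 hpO a G B hg, Pool.Agent.Q90.WR.ba_one hp2 hpO G B hg⟩

end Pool.Agent.Results.MP_6a3f1a_al.ParityDecides
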