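import Pool.Agent.N22.DD.Cla

/-!
# Alperin's weight conjecture in the form of Knörr and Robinson: upper bounds suffice

Let `p` be a prime and `O` a valuation ring of `ℂ` whose maximal ideal contains `p`; blocks, defect
groups and block induction are defined by central characters modulo the maximal ideal of `O`
(`Pool.Agent.H254R3.IN`). For a block `B` of a finite group `G` let `S(B)` be the alternating sum of Q1,
over the classes of chains of nontrivial `p`-subgroups.

Proof. The sum of an arbitrary function of the stabilisers over the chains of `G × K` is the sum of its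
values at the `G_σ × K_τ`; so `S(B ⊗ B) = S(B)²`. If `p` is odd, then `2 S(B ≀ C₂) = S(B)² + 3 S(B)`.
If `S(B) ≤ c |G|^ε` on a class closed under squares, then `|S(B)| ≤ 1` there, by the tensor power trick.
If the class is also closed under wreath products, then `S(B)² = S(B ⊗ B) ∈ {0, 1}`, and the value `1`
would give the value `2` for the wreath product.
-/

set_option autoImplicit false

noncomputable section

namespace Pool.Agent.Results.MP_6a3f1a_al.UpperBounds

open Pool.Agent.Y63.KR (alternatingSum)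
open Pool.Agent.Q90.WR (Wr IndS AdmB bxS)
open Pool.Agent.Q259.BW (WrS)
open Pool.Agent.N22.DD (Cl SqC WrC)

/-- The alternating sum `∑_σ (-1)^|σ| k(B_σ)` over representatives `σ` of the `G`-classes of chains of
nontrivial `p`-subgroups of `G`, the empty chain included; `k(B_σ)` is the number of the irreducible
characters `θ` of `G_σ` with `bl(θ)^G = B`. -/
def S (p : ℕ) (O : ValuationSubring ℂ) {G : Type} [Group G] (B : Set (G → ℂ)) : ℤ :=
  alternatingSum p G (fun H => (Nat.card (IndS O B (Subtype.val : H → G)) : ℤ))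

/-- `Q` holds for `|G|` and `S(B)`, for all pairs `(G, B)` in the class `C`. -/
def All (p : ℕ) (O : ValuationSubring ℂ) (C : Cl) (Q : ℕ → ℤ → Prop) : Prop :=
  ∀ (G : Type) [i : Group G] (B : Set (G → ℂ)), C G i B → Q (Nat.card G) (S p O B)

/-- **Alperin's weight conjecture in the alternating sum form: upper bounds suffice.** Let `p` be a
prime and `C` a class of pairs `(G, B)` of a finite group `G` with `O_p(G) = 1` and a block `B` of `G`
with nontrivial defect groups, closed under squares `(G, B) ↦ (G × G, B ⊗ B)`.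
(1) `S(B) = 0` for all pairs in `C` if and only if `S(B) ≤ 0` for all pairs in `C`.
(2) `|S(B)| ≤ 1` for all pairs in `C` if and only if for every `ε > 0` there is `c` with
`S(B) ≤ c |G|^ε` for all pairs in `C`.
(3) Let `p` be odd and let `C` be also closed under `(G, B) ↦ (G ≀ C₂, B ≀ C₂)`. Then `S(B) = 0` for all
pairs in `C` if and only if for every `ε > 0` there is `c` with `S(B) ≤ c |G|^ε` for all pairs in `C`.
The class of all pairs `(G, B)` is closed under squares and, if `p` is odd, under wreath products. -/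
theorem result (p : ℕ) [Fact p.Prime] (O : ValuationSubring ℂ) (hpO : (p : ℂ) ∈ O.nonunits) :
    (∀ C : Cl, (∀ (G : Type) [i : Group G] (B : Set (G → ℂ)), C G i B → AdmB p O G B) → SqC C →
      (All p O C (fun _ s => s = 0) ↔ All p O C (fun _ s => s ≤ 0)) ∧
      (All p O C (fun _ s => |s| ≤ 1) ↔
        ∀ ε : ℝ, 0 < ε → ∃ c : ℝ, All p O C (fun n s => (s : ℝ) ≤ c * (n : ℝ) ^ ε)) ∧
      (p ≠ 2 → WrC C → (All p O C (fun _ s => s = 0) ↔
        ∀ ε : ℝ, 0 < ε → ∃ c : ℝ, All p O C (fun n s => (s : ℝ) ≤ c * (n : ℝ) ^ ε)))) ∧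
    SqC (fun G _ B => AdmB p O G B) ∧ (p ≠ 2 → WrC (fun G _ B => AdmB p O G B)) := by
  refine ⟨fun C hA hS => ⟨⟨fun h G _ B hB => (h G B hB).le, fun h =>
    Pool.Agent.N22.DD.kr_of_nonpos hA hS h⟩, ⟨fun h ε hε => ⟨1, fun G _ B hB => ?_⟩,
    fun h => Pool.Agent.N22.DD.kr_le_one hA hS h⟩, fun hp2 hW => ⟨fun h ε _ => ⟨0,
    fun G _ B hB => ?_⟩, fun h => Pool.Agent.N22.DD.kr_of_sub hp2 hpO hA hS hW h⟩⟩, ?_, ?_⟩
  · have := (hA G B hB).fin
    have h1 : S p O B ≤ 1 := (abs_le.mp (h G B hB)).2
    have h2 : (S p O B : ℝ) ≤ 1 := by exact_mod_cast h1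
    have h3 : (1 : ℝ) ≤ (Nat.card G : ℝ) := by exact_mod_cast Nat.card_pos (α := G)
    change (S p O B : ℝ) ≤ 1 * (Nat.card G : ℝ) ^ ε
    rw [one_mul]
    exact h2.trans (Real.one_le_rpow h3 hε.le)
  · have h1 : S p O B = 0 := h G B hB
    change (S p O B : ℝ) ≤ 0 * (Nat.card G : ℝ) ^ ε
    rw [h1, zero_mul, Int.cast_zero]
  · intro G _ B hB
    have := hB.fin
    have := Fintype.ofFinite G
    exact Pool.Agent.N22.DD.AdmB.prod hB hB
  · intro hp2 G _ B hB
    exact hB.wr hp2 hpO

end Pool.Agent.Results.MP_6a3f1a_al.UpperBounds
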